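import Pool.Agent.H74.G.R_seed8.H721R2.Local
import Pool.Agent.H74.G.R_seed8.H721R2.Cone

set_option autoImplicit false
set_option linter.unusedSectionVars false

open scoped Manifold ContDiff Topology
open Set Filter

namespace Pool.Agent.H721R2

section uniform

variable {M : Type*} [MetricSpace M] [CompactSpace M]

theorem exists_uniform_radius (P : M → M → Prop)
    (h : ∀ x₀, ∃ W ∈ 𝓝 x₀, ∀ x ∈ W, ∀ y ∈ W, P x y) :
    ∃ r > 0, ∀ x y, dist x y < r → P x y := by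
  choose W hW hP using h
  obtain ⟨r, hr, hcov⟩ := lebesgue_number_lemma_of_metric (isCompact_univ (X := M))
    (c := fun x => interior (W x)) (fun x => isOpen_interior)
    (fun x _ => mem_iUnion.2 ⟨x, mem_interior_iff_mem_nhds.2 (hW x)⟩)
  refine ⟨r, hr, fun x y hxy => ?_⟩
  obtain ⟨i, hi⟩ := hcov x trivial
  exact hP i x (interior_subset (hi (Metric.mem_ball_self hr))) y
    (interior_subset (hi (by rwa [Metric.mem_ball, dist_comm])))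

theorem exists_uniform_const (P : ℝ → M → Prop) (hmono : ∀ C C' x, C ≤ C' → P C x → P C' x)
    (h : ∀ x₀, ∃ C, ∀ᶠ x in 𝓝 x₀, P C x) : ∃ C > 0, ∀ x, P C x := by
  choose C hC using h
  obtain ⟨t, -, ht⟩ := (isCompact_univ (X := M)).elim_nhds_subcover (fun x₀ => {x | P (C x₀) x})
    (fun x₀ _ => hC x₀)
  refine ⟨∑ x ∈ t, |C x| + 1, by positivity, fun x => ?_⟩
  have hx := ht (mem_univ x)
  simp only [mem_iUnion] at hx
  obtain ⟨x₀, hx₀, hx⟩ := hx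
  refine hmono _ _ x ?_ hx
  have h1 : |C x₀| ≤ ∑ x ∈ t, |C x| :=
    Finset.single_le_sum (f := fun x => |C x|) (fun i _ => abs_nonneg _) hx₀
  have h2 := le_abs_self (C x₀)
  linarith

theorem exists_uniform_small (P : ℝ → M → Prop) (hmono : ∀ C C' x, C' ≤ C → P C x → P C' x)
    (h : ∀ x₀, ∃ C > 0, ∀ᶠ x in 𝓝 x₀, P C x) : ∃ C > 0, ∀ x, P C x := by
  obtain ⟨C, hC, hP⟩ := exists_uniform_const (fun C x => 0 < C ∧ P (1 / C) x) (by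
    rintro C C' x hCC' ⟨h1, h2⟩
    exact ⟨by linarith, hmono _ _ x (one_div_le_one_div_of_le h1 hCC') h2⟩) (by
    intro x₀
    obtain ⟨C, hC, hP⟩ := h x₀
    refine ⟨1 / C, ?_⟩
    filter_upwards [hP] with x hx
    refine ⟨by positivity, ?_⟩
    rwa [one_div_one_div])
  exact ⟨1 / C, by positivity, fun x => (hP x).2⟩

end uniform

section anosov

variable {E₀ : Type*} [NormedAddCommGroup E₀] [NormedSpace ℝ E₀]
  {M : Type*} [TopologicalSpace M] [ChartedSpace E₀ M] [IsManifold 𝓘(ℝ, E₀) 1 M]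
  {F : Type*} [NormedAddCommGroup F] [NormedSpace ℝ F]

/-- derivative of a self-map of the manifold, read in the model space -/
noncomputable def dg (E₀ : Type*) [NormedAddCommGroup E₀] [NormedSpace ℝ E₀]
    {M : Type*} [TopologicalSpace M] [ChartedSpace E₀ M] (G : M → M) (x : M) : E₀ →L[ℝ] E₀ :=
  mfderiv 𝓘(ℝ, E₀) 𝓘(ℝ, E₀) G x

theorem dm_comp (e : M → F) (he : ContMDiff 𝓘(ℝ, E₀) 𝓘(ℝ, F) 1 e) (G : M → M)
    (hG : ContMDiff 𝓘(ℝ, E₀) 𝓘(ℝ, E₀) 1 G) (x : M) (v : E₀) :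
    dm E₀ (e ∘ G) x v = dm E₀ e (G x) (dg E₀ G x v) := by
  have h := mfderiv_comp x (he.mdifferentiableAt (by norm_num) : MDifferentiableAt 𝓘(ℝ, E₀)
    𝓘(ℝ, F) e (G x)) (hG.mdifferentiableAt (by norm_num) : MDifferentiableAt 𝓘(ℝ, E₀)
    𝓘(ℝ, E₀) G x)
  show mfderiv 𝓘(ℝ, E₀) 𝓘(ℝ, F) (e ∘ G) x v = _
  rw [h]
  rfl

theorem dg_comp (G G' : M → M) (hG : ContMDiff 𝓘(ℝ, E₀) 𝓘(ℝ, E₀) 1 G)
    (hG' : ContMDiff 𝓘(ℝ, E₀) 𝓘(ℝ, E₀) 1 G') (x : M) (v : E₀) :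
    dg E₀ (G' ∘ G) x v = dg E₀ G' (G x) (dg E₀ G x v) := by
  have h := mfderiv_comp x (hG'.mdifferentiableAt (by norm_num) : MDifferentiableAt 𝓘(ℝ, E₀)
    𝓘(ℝ, E₀) G' (G x)) (hG.mdifferentiableAt (by norm_num) : MDifferentiableAt 𝓘(ℝ, E₀)
    𝓘(ℝ, E₀) G x)
  show mfderiv 𝓘(ℝ, E₀) 𝓘(ℝ, E₀) (G' ∘ G) x v = _
  rw [h]
  rfl

theorem dg_inv (G G' : M → M) (hG : ContMDiff 𝓘(ℝ, E₀) 𝓘(ℝ, E₀) 1 G)
    (hG' : ContMDiff 𝓘(ℝ, E₀) 𝓘(ℝ, E₀) 1 G') (h : ∀ x, G' (G x) = x) (x : M) (v : E₀) :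
    dg E₀ G' (G x) (dg E₀ G x v) = v := by
  rw [← dg_comp G G' hG hG']
  have : G' ∘ G = id := funext h
  rw [this]
  show mfderiv 𝓘(ℝ, E₀) 𝓘(ℝ, E₀) id x v = v
  rw [mfderiv_id]
  rfl

theorem iter_smooth (f : M → M) (hf : ContMDiff 𝓘(ℝ, E₀) 𝓘(ℝ, E₀) 1 f) (n : ℕ) :
    ContMDiff 𝓘(ℝ, E₀) 𝓘(ℝ, E₀) 1 (f^[n]) := by
  induction n with
  | zero => exact contMDiff_id
  | succ n ih => exact ih.comp hf

/-- Anosov data in an ambient normed space. -/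
structure EAnosov (e : M → F) (f : M ≃ₜ M) (Es Eu : M → Submodule ℝ E₀)
    (C a b Ls Lu : ℝ) : Prop where
  smooth : ContMDiff 𝓘(ℝ, E₀) 𝓘(ℝ, E₀) 1 f
  smooth' : ContMDiff 𝓘(ℝ, E₀) 𝓘(ℝ, E₀) 1 f.symm
  compl : ∀ x, IsCompl (Es x) (Eu x)
  C_pos : 1 ≤ C
  a_pos : 0 < a
  b_pos : 0 < b
  a_lt : a < 1
  b_lt : b < 1
  Ls_le : 1 ≤ Ls
  Lu_le : 1 ≤ Lu
  mapS : ∀ (n : ℕ) (x : M), ∀ v ∈ Es x, dg E₀ (f^[n]) x v ∈ Es (f^[n] x)
  mapU : ∀ (n : ℕ) (x : M), ∀ v ∈ Eu x, dg E₀ (f^[n]) x v ∈ Eu (f^[n] x)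
  mapS' : ∀ (n : ℕ) (x : M), ∀ v ∈ Es x, dg E₀ (f.symm^[n]) x v ∈ Es (f.symm^[n] x)
  mapU' : ∀ (n : ℕ) (x : M), ∀ v ∈ Eu x, dg E₀ (f.symm^[n]) x v ∈ Eu (f.symm^[n] x)
  hS : ∀ (n : ℕ) (x : M), ∀ v ∈ Es x,
    ‖dm E₀ e (f^[n] x) (dg E₀ (f^[n]) x v)‖ ≤ C * a ^ n * ‖dm E₀ e x v‖
  hU' : ∀ (n : ℕ) (x : M), ∀ v ∈ Eu x,
    ‖dm E₀ e (f.symm^[n] x) (dg E₀ (f.symm^[n]) x v)‖ ≤ C * b ^ n * ‖dm E₀ e x v‖
  hS' : ∀ (n : ℕ) (x : M), ∀ v ∈ Es x,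
    ‖dm E₀ e (f.symm^[n] x) (dg E₀ (f.symm^[n]) x v)‖ ≤ C * Ls ^ n * ‖dm E₀ e x v‖
  hU : ∀ (n : ℕ) (x : M), ∀ v ∈ Eu x,
    ‖dm E₀ e (f^[n] x) (dg E₀ (f^[n]) x v)‖ ≤ C * Lu ^ n * ‖dm E₀ e x v‖

theorem EAnosov.symm {e : M → F} {f : M ≃ₜ M} {Es Eu : M → Submodule ℝ E₀} {C a b Ls Lu : ℝ}
    (h : EAnosov e f Es Eu C a b Ls Lu) : EAnosov e f.symm Eu Es C b a Lu Ls where
  smooth := h.smooth'
  smooth' := h.smooth
  compl := fun x => (h.compl x).symm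
  C_pos := h.C_pos
  a_pos := h.b_pos
  b_pos := h.a_pos
  a_lt := h.b_lt
  b_lt := h.a_lt
  Ls_le := h.Lu_le
  Lu_le := h.Ls_le
  mapS := h.mapU'
  mapU := h.mapS'
  mapS' := h.mapU
  mapU' := h.mapS
  hS := h.hU'
  hU' := h.hS
  hS' := h.hU
  hU := h.hS'

theorem iter_left (f : M ≃ₜ M) (n : ℕ) (x : M) : f.symm^[n] (f^[n] x) = x :=
  (Function.LeftInverse.iterate f.symm_apply_apply n) x

theorem iter_right (f : M ≃ₜ M) (n : ℕ) (x : M) : f^[n] (f.symm^[n] x) = x :=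
  (Function.LeftInverse.iterate f.apply_symm_apply n) x

theorem EAnosov.decomp {e : M → F} {f : M ≃ₜ M} {Es Eu : M → Submodule ℝ E₀} {C a b Ls Lu : ℝ}
    (h : EAnosov e f Es Eu C a b Ls Lu) (x : M) (v : E₀) :
    ∃ s ∈ Es x, ∃ u ∈ Eu x, s + u = v := by
  have h1 := (h.compl x).sup_eq_top
  have h2 : v ∈ Es x ⊔ Eu x := by rw [h1]; trivial
  exact Submodule.mem_sup.mp h2

end anosov

section global

variable {E₀ : Type*} [NormedAddCommGroup E₀] [NormedSpace ℝ E₀] [FiniteDimensional ℝ E₀]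
  {M : Type*} [MetricSpace M] [CompactSpace M] [ChartedSpace E₀ M] [IsManifold 𝓘(ℝ, E₀) 1 M]
  {F : Type*} [NormedAddCommGroup F] [NormedSpace ℝ F]

/-- global upper bound for the derivative of a smooth map -/
theorem global_bound (e : M → F) (he : ContMDiff 𝓘(ℝ, E₀) 𝓘(ℝ, F) 1 e)
    (hinj : ∀ x, Function.Injective (dm E₀ e x)) (G : M → M)
    (hG : ContMDiff 𝓘(ℝ, E₀) 𝓘(ℝ, E₀) 1 G) :
    ∃ B > 0, ∀ x : M, ∀ v : E₀, ‖dm E₀ e (G x) (dg E₀ G x v)‖ ≤ B * ‖dm E₀ e x v‖ := by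
  apply exists_uniform_const
  · intro C C' x hCC' h v
    exact (h v).trans (mul_le_mul_of_nonneg_right hCC' (norm_nonneg _))
  · intro x₀
    obtain ⟨⟨C, hC, h1⟩, -⟩ := local_all e he hinj (e ∘ G) (he.comp hG) x₀
    refine ⟨C * C, ?_⟩
    filter_upwards [h1] with x hx v
    obtain ⟨h2, h3⟩ := hx v
    rw [← dm_comp e he G hG]
    calc _ ≤ C * ‖dm E₀ (extChartAt 𝓘(ℝ, E₀) x₀) x v‖ := h3
      _ ≤ C * (C * ‖dm E₀ e x v‖) := mul_le_mul_of_nonneg_left h2 hC.le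
      _ = _ := by ring

theorem EAnosov.angle {e : M → F} (he : ContMDiff 𝓘(ℝ, E₀) 𝓘(ℝ, F) 1 e)
    (hinj : ∀ x, Function.Injective (dm E₀ e x))
    {f : M ≃ₜ M} {Es Eu : M → Submodule ℝ E₀} {C a b Ls Lu : ℝ}
    (h : EAnosov e f Es Eu C a b Ls Lu) : ∃ K ≥ 1, ∀ x, ∀ s ∈ Es x, ∀ u ∈ Eu x,
      ‖dm E₀ e x s‖ ≤ K * ‖dm E₀ e x (s + u)‖ ∧ ‖dm E₀ e x u‖ ≤ K * ‖dm E₀ e x (s + u)‖ := by
  have hC := h.C_pos
  have ht1 : Tendsto (fun n : ℕ => C * a ^ n) atTop (𝓝 0) := by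
    have := (tendsto_pow_atTop_nhds_zero_of_lt_one h.a_pos.le h.a_lt).const_mul C
    simpa using this
  have ht2 : Tendsto (fun n : ℕ => C * b ^ n) atTop (𝓝 0) := by
    have := (tendsto_pow_atTop_nhds_zero_of_lt_one h.b_pos.le h.b_lt).const_mul C
    simpa using this
  obtain ⟨n, hn1, hn2⟩ := (((tendsto_order.mp ht1).2 (1 / 4) (by norm_num)).and
    ((tendsto_order.mp ht2).2 (1 / 4) (by norm_num))).exists
  obtain ⟨B, hB, hBv⟩ := global_bound e he hinj (f^[n]) (iter_smooth f h.smooth n)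
  refine ⟨B + 2, by linarith, fun x s hs u hu => ?_⟩
  set Ds := dm E₀ e (f^[n] x) (dg E₀ (f^[n]) x s) with hDs
  set Du := dm E₀ e (f^[n] x) (dg E₀ (f^[n]) x u) with hDu
  have h1 : ‖Ds‖ ≤ 1 / 4 * ‖dm E₀ e x s‖ :=
    (h.hS n x s hs).trans (mul_le_mul_of_nonneg_right hn1.le (norm_nonneg _))
  have h2 : 4 * ‖dm E₀ e x u‖ ≤ ‖Du‖ := by
    have h3 := h.hU' n (f^[n] x) _ (h.mapU n x u hu)
    rw [dg_inv (f^[n]) (f.symm^[n]) (iter_smooth f h.smooth n) (iter_smooth _ h.smooth' n)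
      (iter_left f n), iter_left] at h3
    have h4 : C * b ^ n * ‖Du‖ ≤ 1 / 4 * ‖Du‖ := mul_le_mul_of_nonneg_right hn2.le (norm_nonneg _)
    linarith
  have h3 : ‖Ds + Du‖ ≤ B * ‖dm E₀ e x (s + u)‖ := by
    have := hBv x (s + u)
    rwa [map_add, map_add] at this
  have h4 : ‖Du‖ ≤ ‖Ds + Du‖ + ‖Ds‖ := by
    have := norm_sub_le (Ds + Du) Ds
    rwa [add_sub_cancel_left] at this
  have h5 : ‖dm E₀ e x s‖ ≤ ‖dm E₀ e x (s + u)‖ + ‖dm E₀ e x u‖ := by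
    have := norm_sub_le (dm E₀ e x (s + u)) (dm E₀ e x u)
    rwa [← map_sub, add_sub_cancel_right] at this
  have h6 := norm_nonneg (dm E₀ e x (s + u))
  have h7 := norm_nonneg (dm E₀ e x u)
  have h8 := norm_nonneg (dm E₀ e x s)
  have h9 : 0 ≤ B * ‖dm E₀ e x (s + u)‖ := by positivity
  constructor <;> nlinarith

theorem EAnosov.contS {e : M → F} (he : ContMDiff 𝓘(ℝ, E₀) 𝓘(ℝ, F) 1 e)
    (hinj : ∀ x, Function.Injective (dm E₀ e x))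
    {f : M ≃ₜ M} {Es Eu : M → Submodule ℝ E₀} {C a b Ls Lu : ℝ}
    (h : EAnosov e f Es Eu C a b Ls Lu) (η : ℝ) (hη : 0 < η) : ∃ r > 0, ∀ x y, dist x y < r →
      ∀ s ∈ Es x, ∃ s' ∈ Es y, ‖dm E₀ e x s - dm E₀ e y s'‖ ≤ η * ‖dm E₀ e x s‖ := by
  obtain ⟨K, hK, hang⟩ := h.angle he hinj
  have hC := h.C_pos
  have hK0 : 0 < K := by linarith
  have ht1 : Tendsto (fun n : ℕ => C * a ^ n) atTop (𝓝 0) := by
    have := (tendsto_pow_atTop_nhds_zero_of_lt_one h.a_pos.le h.a_lt).const_mul C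
    simpa using this
  have ht2 : Tendsto (fun n : ℕ => C * b ^ n) atTop (𝓝 0) := by
    have := (tendsto_pow_atTop_nhds_zero_of_lt_one h.b_pos.le h.b_lt).const_mul C
    simpa using this
  set q := min (1 / (6 * K)) (η / 4) with hq
  have hq0 : 0 < q := lt_min (by positivity) (by positivity)
  obtain ⟨n, hn1, hn2⟩ := (((tendsto_order.mp ht1).2 q hq0).and
    ((tendsto_order.mp ht2).2 q hq0)).exists
  have hq1 : q ≤ 1 / (6 * K) := min_le_left _ _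
  have hq2 : q ≤ η / 4 := min_le_right _ _
  have hq3 : 6 * K * q ≤ 1 := by
    rw [le_div_iff₀ (by positivity)] at hq1
    linarith
  set η' := min 1 (η / 4) with hη'
  have hη'0 : 0 < η' := lt_min one_pos (by positivity)
  have hη'1 : η' ≤ 1 := min_le_left _ _
  have hη'2 : η' ≤ η / 4 := min_le_right _ _
  have hP : ∃ r > 0, ∀ x y, dist x y < r → ∀ v : E₀, ∃ w : E₀,
      ‖dm E₀ e x v - dm E₀ e y w‖ ≤ η' * ‖dm E₀ e x v‖ ∧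
      ‖dm E₀ e (f^[n] x) (dg E₀ (f^[n]) x v) - dm E₀ e (f^[n] y) (dg E₀ (f^[n]) y w)‖ ≤
        η' * ‖dm E₀ e x v‖ := by
    apply exists_uniform_radius
    intro x₀
    obtain ⟨-, h1⟩ := local_all e he hinj (e ∘ f^[n]) (he.comp (iter_smooth f h.smooth n)) x₀
    obtain ⟨W, hW, r, hr, -, -, h2⟩ := h1 η' hη'0
    refine ⟨W, hW, fun x hx y hy v => ?_⟩
    obtain ⟨w, h3, h4⟩ := h2 x hx y hy v
    rw [dm_comp e he _ (iter_smooth f h.smooth n), dm_comp e he _ (iter_smooth f h.smooth n)] at h4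
    exact ⟨w, h3, h4⟩
  obtain ⟨r, hr, hP⟩ := hP
  refine ⟨r, hr, fun x y hxy s hs => ?_⟩
  obtain ⟨w, h1, h2⟩ := hP x y hxy s
  obtain ⟨ws, hws, wu, hwu, hsum⟩ := h.decomp y w
  obtain ⟨ha1, ha2⟩ := hang y ws hws wu hwu
  rw [hsum] at ha1 ha2
  refine ⟨ws, hws, ?_⟩
  set N := ‖dm E₀ e x s‖ with hN
  have hN0 : 0 ≤ N := norm_nonneg _
  -- norm of w
  have hw : ‖dm E₀ e y w‖ ≤ 2 * N := by
    have h3 := norm_sub_le (dm E₀ e x s) (dm E₀ e x s - dm E₀ e y w)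
    rw [sub_sub_cancel] at h3
    have h4 : η' * N ≤ 1 * N := mul_le_mul_of_nonneg_right hη'1 hN0
    linarith
  set Ds := dm E₀ e (f^[n] x) (dg E₀ (f^[n]) x s) with hDs
  set Dws := dm E₀ e (f^[n] y) (dg E₀ (f^[n]) y ws) with hDws
  set Dwu := dm E₀ e (f^[n] y) (dg E₀ (f^[n]) y wu) with hDwu
  have hDw : dm E₀ e (f^[n] y) (dg E₀ (f^[n]) y w) = Dws + Dwu := by
    rw [← hsum, map_add, map_add]
  rw [hDw] at h2
  have h3 : ‖Ds‖ ≤ q * N := (h.hS n x s hs).trans (mul_le_mul_of_nonneg_right hn1.le hN0)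
  have h4 : ‖Dws‖ ≤ q * (K * (2 * N)) := by
    refine (h.hS n y ws hws).trans ?_
    refine mul_le_mul hn1.le (ha1.trans (mul_le_mul_of_nonneg_left hw hK0.le)) (norm_nonneg _) hq0.le
  have h5 : ‖dm E₀ e y wu‖ ≤ q * ‖Dwu‖ := by
    have h6 := h.hU' n (f^[n] y) _ (h.mapU n y wu hwu)
    rw [dg_inv (f^[n]) (f.symm^[n]) (iter_smooth f h.smooth n) (iter_smooth _ h.smooth' n)
      (iter_left f n), iter_left] at h6
    exact h6.trans (mul_le_mul_of_nonneg_right hn2.le (norm_nonneg _))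
  have h6 : ‖Dwu‖ ≤ ‖Ds‖ + ‖Ds - (Dws + Dwu)‖ + ‖Dws‖ := by
    have e1 : Dwu = Ds - (Ds - (Dws + Dwu)) - Dws := by abel
    have h7 := norm_sub_le (Ds - (Ds - (Dws + Dwu))) Dws
    have h8 := norm_sub_le Ds (Ds - (Dws + Dwu))
    rw [← e1] at h7
    linarith
  have h7 : ‖Dwu‖ ≤ 3 * N := by
    have h8 : q * N ≤ 1 * N := mul_le_mul_of_nonneg_right (by nlinarith) hN0
    have h9 : η' * N ≤ 1 * N := mul_le_mul_of_nonneg_right hη'1 hN0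
    have h10 : q * (K * (2 * N)) ≤ 1 / 3 * N := by nlinarith
    nlinarith
  have h8 : ‖dm E₀ e y wu‖ ≤ 3 / 4 * η * N := by
    refine h5.trans ?_
    calc q * ‖Dwu‖ ≤ (η / 4) * (3 * N) := mul_le_mul hq2 h7 (norm_nonneg _) (by positivity)
      _ = _ := by ring
  have e1 : dm E₀ e x s - dm E₀ e y ws = (dm E₀ e x s - dm E₀ e y w) + dm E₀ e y wu := by
    rw [← hsum, map_add]; abel
  rw [e1]
  have h9 := norm_add_le (dm E₀ e x s - dm E₀ e y w) (dm E₀ e y wu)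
  have h10 : η' * N ≤ η / 4 * N := mul_le_mul_of_nonneg_right hη'2 hN0
  linarith

end global

end Pool.Agent.H721R2
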